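import Pool.Agent.helper80.SV.Spec2

/-!
# Project sv: (MP_b5a345_ag), module PRM: permuting the factors
-/

set_option autoImplicit false

namespace Pool.Agent.SV

open MvPolynomial Module

/-- the equivalence of the variables -/
def PRM_e {k : ℕ} (σ : Equiv.Perm (Fin k)) (n : Fin k → ℕ) : Var (n ∘ σ) ≃ Var n :=
  Equiv.sigmaCongrLeft (β := fun i : Fin k => Fin (n i + 1)) σ

theorem PRM_e_mk {k : ℕ} (σ : Equiv.Perm (Fin k)) (n : Fin k → ℕ) (i : Fin k)
    (j : Fin (n (σ i) + 1)) : PRM_e σ n ⟨i, j⟩ = ⟨σ i, j⟩ := rfl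

theorem PRM_e_symm {k : ℕ} (σ : Equiv.Perm (Fin k)) (n : Fin k → ℕ) (i : Fin k)
    (j : Fin (n (σ i) + 1)) : (PRM_e σ n).symm ⟨σ i, j⟩ = ⟨i, j⟩ := by
  rw [Equiv.symm_apply_eq]
  rfl

theorem PRM_coeff {k : ℕ} (σ : Equiv.Perm (Fin k)) (n : Fin k → ℕ)
    (f : MvPolynomial (Var (n ∘ σ)) ℂ) (m : Var n →₀ ℕ) :
    coeff m (rename (PRM_e σ n) f) = coeff (m.mapDomain (PRM_e σ n).symm) f := by
  have h := coeff_rename_mapDomain (PRM_e σ n) (PRM_e σ n).injective f
    (m.mapDomain (PRM_e σ n).symm)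
  have h2 : (m.mapDomain (PRM_e σ n).symm).mapDomain (PRM_e σ n) = m := by
    rw [← Finsupp.mapDomain_comp]
    simp
  rw [h2] at h
  exact h

theorem PRM_multi {k : ℕ} (σ : Equiv.Perm (Fin k)) (n d : Fin k → ℕ)
    (f : MvPolynomial (Var (n ∘ σ)) ℂ) :
    rename (PRM_e σ n) f ∈ MultiHom n d ↔ f ∈ MultiHom (n ∘ σ) (d ∘ σ) := by
  constructor
  · intro h m' hm' i'
    have h1 := h (m'.mapDomain (PRM_e σ n)) (by
      rw [coeff_rename_mapDomain _ (PRM_e σ n).injective]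
      exact hm') (σ i')
    have h2 : ∀ j : Fin (n (σ i') + 1),
        (m'.mapDomain (PRM_e σ n)) ⟨σ i', j⟩ = m' ⟨i', j⟩ := by
      intro j
      rw [Finsupp.mapDomain_equiv_apply, PRM_e_symm]
    simp only [h2] at h1
    exact h1
  · intro h m hm i
    obtain ⟨i', rfl⟩ := σ.surjective i
    rw [PRM_coeff] at hm
    have h1 := h _ hm i'
    have h2 : ∀ j : Fin (n (σ i') + 1),
        (m.mapDomain (PRM_e σ n).symm) ⟨i', j⟩ = m ⟨σ i', j⟩ := by
      intro j
      rw [Finsupp.mapDomain_equiv_apply, Equiv.symm_symm, PRM_e_mk]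
    change ∑ j : Fin (n (σ i') + 1), (m.mapDomain (PRM_e σ n).symm) ⟨i', j⟩ = d (σ i') at h1
    simp only [h2] at h1
    exact h1

theorem PRM_double {k : ℕ} (σ : Equiv.Perm (Fin k)) (n : Fin k → ℕ) (x : Var (n ∘ σ) → ℂ)
    (f : MvPolynomial (Var (n ∘ σ)) ℂ) :
    rename (PRM_e σ n) f ∈ DoubleAt (x ∘ (PRM_e σ n).symm) ↔ f ∈ DoubleAt x := by
  have h0 : ∀ g : MvPolynomial (Var (n ∘ σ)) ℂ,
      eval (x ∘ (PRM_e σ n).symm) (rename (PRM_e σ n) g) = eval x g := by
    intro g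
    rw [eval_rename]
    congr 2
    funext v
    simp
  constructor
  · rintro ⟨h1, h2⟩
    refine ⟨by rw [h0] at h1; exact h1, fun v => ?_⟩
    have h3 := h2 (PRM_e σ n v)
    rw [pderiv_rename (PRM_e σ n).injective, h0] at h3
    exact h3
  · rintro ⟨h1, h2⟩
    refine ⟨by rw [h0]; exact h1, fun v => ?_⟩
    obtain ⟨w, rfl⟩ := (PRM_e σ n).surjective v
    rw [pderiv_rename (PRM_e σ n).injective, h0]
    exact h2 w

theorem PRM_one {k : ℕ} (σ : Equiv.Perm (Fin k)) (n d : Fin k → ℕ) (r : ℕ)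
    (h : General n r (Independent n d)) : General (n ∘ σ) r (Independent (n ∘ σ) (d ∘ σ)) := by
  obtain ⟨F, hF, hp⟩ := h
  set e := PRM_e σ n with he
  set L : MvPolynomial (Var (n ∘ σ)) ℂ ≃ₗ[ℂ] MvPolynomial (Var n) ℂ :=
    (renameEquiv ℂ e).toLinearEquiv with hL
  have hLa : ∀ f, L f = rename e f := fun f => rfl
  refine ⟨rename (fun v : Fin r × Var n => ((v.1, e.symm v.2) : Fin r × Var (n ∘ σ))) F, ?_, ?_⟩
  · intro h0
    apply hF
    have hinj : Function.Injective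
        (fun v : Fin r × Var n => ((v.1, e.symm v.2) : Fin r × Var (n ∘ σ))) := by
      intro v w hvw
      rw [Prod.mk.injEq] at hvw
      exact Prod.ext hvw.1 (e.symm.injective hvw.2)
    exact rename_injective _ hinj (by rw [h0, map_zero])
  · intro p hpp hev
    rw [eval_rename] at hev
    have h1 := hp (fun l => p l ∘ e.symm) ?_ hev
    · have hM : (MultiHom (n ∘ σ) (d ∘ σ)).map (L : MvPolynomial (Var (n ∘ σ)) ℂ →ₗ[ℂ] _) =
          MultiHom n d := by
        ext g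
        rw [Submodule.mem_map]
        constructor
        · rintro ⟨f, hf, rfl⟩
          exact (PRM_multi σ n d f).mpr hf
        · intro hg
          refine ⟨L.symm g, ?_, L.apply_symm_apply g⟩
          rw [← PRM_multi σ n d, ← he, ← hLa, L.apply_symm_apply]
          exact hg
      have hS : (Sys (n ∘ σ) (d ∘ σ) p).map (L : MvPolynomial (Var (n ∘ σ)) ℂ →ₗ[ℂ] _) =
          Sys n d (fun l => p l ∘ e.symm) := by
        have hmem : ∀ f : MvPolynomial (Var (n ∘ σ)) ℂ,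
            rename e f ∈ Sys n d (fun l => p l ∘ e.symm) ↔ f ∈ Sys (n ∘ σ) (d ∘ σ) p := by
          intro f
          simp only [Sys, Submodule.mem_inf, Submodule.mem_iInf]
          refine and_congr (PRM_multi σ n d f) (forall_congr' fun l => ?_)
          exact PRM_double σ n (p l) f
        ext g
        rw [Submodule.mem_map]
        constructor
        · rintro ⟨f, hf, rfl⟩
          exact (hmem f).mpr hf
        · intro hg
          refine ⟨L.symm g, ?_, L.apply_symm_apply g⟩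
          rw [← hmem, ← hLa, L.apply_symm_apply]
          exact hg
      unfold Independent at h1 ⊢
      rw [← hM, ← hS, LinearEquiv.finrank_map_eq, LinearEquiv.finrank_map_eq] at h1
      rw [h1]
      congr 2
      have h3 : ∑ i, (n ∘ σ) i = ∑ i, n i := Equiv.sum_comp σ n
      rw [h3]
    · intro l i
      obtain ⟨i', rfl⟩ := σ.surjective i
      obtain ⟨j, hj⟩ := hpp l i'
      refine ⟨j, ?_⟩
      change p l (e.symm ⟨σ i', j⟩) ≠ 0
      rw [he, PRM_e_symm]
      exact hj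

theorem PRM_imp {k : ℕ} (σ : Equiv.Perm (Fin k)) (n d : Fin k → ℕ)
    (h : Special (n ∘ σ) (d ∘ σ)) : Special n d := by
  obtain ⟨r, hr, h1⟩ := h
  exact ⟨r, hr, fun h2 => h1 (PRM_one σ n d r h2)⟩

theorem PRM : PRM_stmt := by
  intro k σ n d
  refine ⟨PRM_imp σ n d, fun h => ?_⟩
  have h1 := PRM_imp σ.symm (n ∘ σ) (d ∘ σ)
  have hn : (n ∘ σ) ∘ σ.symm = n := by funext i; simp
  have hd : (d ∘ σ) ∘ σ.symm = d := by funext i; simp
  rw [hn, hd] at h1
  exact h1 h

end Pool.Agent.SV
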